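import Mathlib
import Pool.Agent.H321R3.HermZeros
import Pool.Agent.H321R3.HermDens

set_option autoImplicit false
open MeasureTheory Filter Topology Set

namespace Pool.Agent.Results.MP_bef260_an.HermiteNonFrame

open Pool.Agent.H321R3.Herm

/-- the abscissae of the `2n+1` cosets -/
noncomputable def xs {n : ℕ} (a : ℝ) (y : Bool → Fin n → ℝ) : Option (Bool × Fin n) → ℝ
  | none => a / 2
  | some (b, i) => -(y b i)

/-- the ordinates of the `2n+1` cosets -/
noncomputable def ws {n : ℕ} (a : ℝ) (b0 : Bool) : Option (Bool × Fin n) → ℝ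
  | none => om a b0
  | some (b, _) => om a b

lemma om_int (a : ℝ) (ha : 0 < a) (b b' : Bool) (l l' : ℤ)
    (h : om a b + l / a = om a b' + l' / a) : b = b' := by
  cases b <;> cases b' <;> simp only [om, if_true, Bool.false_eq_true, if_false] at h ⊢
  · exfalso
    field_simp at h
    have h1 : 2 * (0 + (l : ℝ)) = 1 + 2 * l' := by linarith
    have h2 : 2 * (0 + l) = 1 + 2 * l' := by exact_mod_cast h1
    omega
  · exfalso
    field_simp at h
    have h1 : 1 + 2 * (l : ℝ) = 2 * (0 + l') := by linarith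
    have h2 : 1 + 2 * l = 2 * (0 + l') := by exact_mod_cast h1
    omega

/-- For every `n ≥ 1` there is a separated set `Γ` of density `2n+1 > n+1` such that the Gabor
system of the `n`-th Hermite function over `Γ` is not a frame. -/
theorem result : ∀ n : ℕ, 1 ≤ n → ∃ Γ : Set (ℝ × ℝ), IsSeparatedSet Γ ∧
    lowerBeurlingDensity Γ = 2 * (n : ℝ) + 1 ∧ (n : ℝ) + 1 < lowerBeurlingDensity Γ ∧
    ¬ IsGaborFrame (fun t => ((hermiteFun n t : ℝ) : ℂ)) Γ := by
  intro n hn
  obtain ⟨C, hC0, hC⟩ := hermiteFun_decay n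
  have hw := hermiteFun_continuous n
  obtain ⟨p, σ, hp, hs⟩ := hermiteFun_sign n
  have hev : ∀ b : Bool, ∀ᶠ a in atTop, ∃ y : Fin n → ℝ, ∀ i : Fin n,
      y i ∈ Ioo (p i) (p (i + 1)) ∧ per (hermiteFun n) (eps b) a (y i) = 0 := fun b =>
    exists_zeros hw hC0 hC (eps_cases b) n p σ hp hs
  -- a bound for the points `p i`
  set L : ℝ := ∑ i ∈ Finset.range (n + 1), |p i| with hL
  have hpL : ∀ i ≤ n, |p i| ≤ L := fun i hi =>
    Finset.single_le_sum (f := fun i => |p i|) (fun _ _ => abs_nonneg _)
      (Finset.mem_range.2 (by omega))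
  obtain ⟨a, ⟨hy0, hy1⟩, ha1, haL⟩ := (((hev false).and (hev true)).and
    ((eventually_ge_atTop (1:ℝ)).and (eventually_gt_atTop (2 * L)))).exists
  have ha : 0 < a := by linarith
  obtain ⟨y0, hy0⟩ := hy0
  obtain ⟨y1, hy1⟩ := hy1
  obtain ⟨y, hy⟩ : ∃ y : Bool → Fin n → ℝ, ∀ b, ∀ i : Fin n,
      y b i ∈ Ioo (p i) (p (i + 1)) ∧ per (hermiteFun n) (eps b) a (y b i) = 0 := by
    refine ⟨fun b => if b then y1 else y0, fun b => ?_⟩
    cases b
    · exact hy0
    · exact hy1
  -- bounds
  have hyL : ∀ b i, |y b i| < a / 2 := by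
    intro b i
    have h1 := (hy b i).1
    have h2 := abs_le.1 (hpL i i.2.le)
    have h3 := abs_le.1 (hpL (i + 1) i.2)
    rw [abs_lt]
    exact ⟨by linarith [h1.1], by linarith [h1.2]⟩
  -- monotonicity of the `p i`
  have hpmono : ∀ i j : ℕ, i ≤ j → j ≤ n → p i ≤ p j := by
    intro i j hij
    induction j, hij using Nat.le_induction with
    | base => intro _; exact le_rfl
    | succ j hij ih =>
      intro hj
      exact (ih (by omega)).trans (hp j (by omega)).le
  have hyinj : ∀ b, Function.Injective (y b) := by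
    intro b i j hij
    by_contra hne
    have h1 := (hy b i).1
    have h2 := (hy b j).1
    rcases lt_or_gt_of_ne hne with h | h
    · have h3 := hpmono (i + 1) j (by exact_mod_cast h) j.2.le
      rw [hij] at h1
      linarith [h1.2, h2.1]
    · have h3 := hpmono (j + 1) i (by exact_mod_cast h) i.2.le
      rw [hij] at h1
      linarith [h1.1, h2.2]
  -- the special coset
  obtain ⟨b0, hb0⟩ : ∃ b0 : Bool, eps b0 = (-1) ^ (n + 1) := by
    rcases Nat.even_or_odd (n + 1) with h | h
    · exact ⟨false, by rw [h.neg_one_pow]; simp [eps]⟩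
    · exact ⟨true, by rw [h.neg_one_pow]; simp [eps]⟩
  have hz : ∀ i, ∑' m, vt (hermiteFun n) a (xs a y i) (ws a b0 i) 0 m = 0 := by
    intro i
    match i with
    | none =>
      show ∑' m, vt (hermiteFun n) a (a / 2) (om a b0) 0 m = 0
      rw [tsum_vt _ a ha, hb0, per_special n (hermiteFun_neg n)]
      simp
    | some (b, i) =>
      show ∑' m, vt (hermiteFun n) a (-(y b i)) (om a b) 0 m = 0
      rw [tsum_vt _ a ha, neg_neg, (hy b i).2]
      simp
  have hkey : ∀ (s s' : ℝ) (k k' : ℤ), |s - s'| < a → s + k * a = s' + k' * a → s = s' := by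
    intro s s' k k' h1 h2
    have h3 : s - s' = (k' - k : ℤ) * a := by push_cast; linarith
    rw [h3, abs_mul, abs_of_pos ha] at h1
    have h4 : |((k' - k : ℤ) : ℝ)| < 1 := by
      by_contra h
      push Not at h
      nlinarith
    have h5 : k' - k = 0 := by
      have : |k' - k| < 1 := by exact_mod_cast h4
      exact Int.abs_lt_one_iff.1 this
    rw [h5] at h3
    simp at h3
    linarith
  have hd : Pairwise (fun i j => Disjoint (Set.range (latPt a (xs a y i) (ws a b0 i)))
      (Set.range (latPt a (xs a y j) (ws (n := n) a b0 j)))) := by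
    intro i j hij
    rw [Set.disjoint_left]
    rintro _ ⟨⟨k, l⟩, rfl⟩ ⟨⟨k', l'⟩, h⟩
    simp only [latPt, Prod.mk.injEq] at h
    obtain ⟨h1, h2⟩ := h
    apply hij
    match i, j with
    | none, none => rfl
    | none, some (b, i) =>
      exfalso
      simp only [xs] at h1
      have h3 := abs_lt.1 (hyL b i)
      have := hkey (-(y b i)) (a / 2) k' k (by rw [abs_lt]; constructor <;> linarith) h1
      linarith
    | some (b, i), none =>
      exfalso
      simp only [xs] at h1
      have h3 := abs_lt.1 (hyL b i)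
      have := hkey (a / 2) (-(y b i)) k' k (by rw [abs_lt]; constructor <;> linarith) h1
      linarith
    | some (b, i), some (b', i') =>
      simp only [xs, ws] at h1 h2
      have hb := om_int a ha _ _ _ _ h2
      subst hb
      have h3 := abs_lt.1 (hyL b' i)
      have h4 := abs_lt.1 (hyL b' i')
      have h5 := hkey (-(y b' i')) (-(y b' i)) k' k
        (by rw [abs_lt]; constructor <;> linarith) h1
      have h6 : y b' i = y b' i' := by linarith
      rw [hyinj b' h6]
  have hdens : lowerBeurlingDensity (cosets a (xs a y) (ws (n := n) a b0)) = 2 * (n : ℝ) + 1 := by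
    rw [density_cosets a ha _ _ hd]
    simp [Fintype.card_option]
  refine ⟨cosets a (xs a y) (ws (n := n) a b0), isSeparated_cosets a ha _ _, hdens, ?_,
    not_frame (hermiteFun n) hw C hC a ha _ _ hz⟩
  rw [hdens]
  have : (1 : ℝ) ≤ n := by exact_mod_cast hn
  linarith

end Pool.Agent.Results.MP_bef260_an.HermiteNonFrame
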